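import Pool.Agent.Helper14D.Stm4
import Pool.Agent.Helper14C.Num2

/-!
# MP_8dbee4_ag: representing a degree (piece P of helper14)
-/

set_option autoImplicit false

namespace Pool.Agent.Helper32.VD

theorem rep2_aux (N' p v' c m : ℕ) (hp : p.Prime)
    (hc : (N' + 2).factorial.factorization p = c) (hcm : p ^ c ∣ m)
    (hm : 2 * (N' + 2).factorial ^ 2 * (p ^ v') ^ N' ≤ m) :
    ∃ al be : ℕ, m = al * (N' + 2).factorial + be * ((p ^ v') ^ N' * ((N' + 2).factorial + 1)) := by
  set F := (N' + 2).factorial with hF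
  set t := (p ^ v') ^ N' * (F + 1) with ht
  have hF0 : 0 < F := Nat.factorial_pos _
  have hq0 : 0 < (p ^ v') ^ N' := pow_pos (pow_pos hp.pos _) _
  have ht0 : 0 < t := Nat.mul_pos hq0 (Nat.succ_pos _)
  have hg0 : 0 < Nat.gcd F t := Nat.gcd_pos_of_pos_left _ hF0
  have hg1 : Nat.gcd F t ∣ p ^ c := by
    have h1 : Nat.gcd F t = Nat.gcd F ((p ^ v') ^ N') := by
      rw [ht]
      apply Nat.Coprime.gcd_mul_right_cancel_right
      simp
    rw [h1, ← pow_mul]
    obtain ⟨k, -, hk⟩ := (Nat.dvd_prime_pow hp).1 (Nat.gcd_dvd_right F (p ^ (v' * N')))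
    rw [hk]
    apply pow_dvd_pow
    have h2 : p ^ k ∣ F := by
      rw [← hk]
      exact Nat.gcd_dvd_left _ _
    rw [← hc]
    exact (hp.pow_dvd_iff_le_factorization hF0.ne').1 h2
  obtain ⟨m', hm'⟩ := hg1.trans hcm
  obtain ⟨F', hF'⟩ := Nat.gcd_dvd_left F t
  obtain ⟨t', ht'⟩ := Nat.gcd_dvd_right F t
  set g := Nat.gcd F t with hg
  have hF'0 : 0 < F' := by
    rcases Nat.eq_zero_or_pos F' with h | h
    · rw [h, mul_zero] at hF'
      omega
    · exact h
  have ht'0 : 0 < t' := by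
    rcases Nat.eq_zero_or_pos t' with h | h
    · rw [h, mul_zero] at ht'
      omega
    · exact h
  have hcop : Nat.Coprime t' F' := by
    have h1 : g * Nat.gcd F' t' = g * 1 := by
      rw [← Nat.gcd_mul_left, ← hF', ← ht', mul_one]
    have h2 := Nat.eq_of_mul_eq_mul_left hg0 h1
    rw [Nat.Coprime, Nat.gcd_comm]
    exact h2
  have hle : (F' - 1) * t' ≤ m' := by
    have h1 : F * t ≤ m := by
      refine le_trans ?_ hm
      rw [ht]
      have h2 : F + 1 ≤ 2 * F := by omega
      calc F * ((p ^ v') ^ N' * (F + 1)) = (p ^ v') ^ N' * (F * (F + 1)) := by ring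
        _ ≤ (p ^ v') ^ N' * (F * (2 * F)) :=
            Nat.mul_le_mul_left _ (Nat.mul_le_mul_left _ h2)
        _ = _ := by ring
    have h3 : g * (F' * t') ≤ g * m' := by
      rw [← hm']
      refine le_trans ?_ h1
      calc g * (F' * t') = (g * F') * t' := by ring
        _ = F * t' := by rw [← hF']
        _ ≤ F * t := by
            apply Nat.mul_le_mul_left
            calc t' = 1 * t' := (one_mul _).symm
              _ ≤ g * t' := Nat.mul_le_mul_right _ hg0
              _ = t := ht'.symm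
    have h4 := Nat.le_of_mul_le_mul_left h3 hg0
    refine le_trans (Nat.mul_le_mul_right _ (Nat.sub_le _ _)) h4
  obtain ⟨al, be, h⟩ := Pool.Agent.Helper14C.coin F' t' m' hF'0 hcop hle
  refine ⟨al, be, ?_⟩
  calc m = g * m' := hm'
    _ = g * (al * F' + be * t') := by rw [← h]
    _ = al * (g * F') + be * (g * t') := by ring
    _ = al * F + be * t := by rw [← hF', ← ht']

theorem t_rep2 : Pool.Agent.Helper14D.S_rep2 := by
  intro N p v d hN hp hpd h
  rcases h with ⟨m, hm⟩ | h
  · exact ⟨v, m, 0, Nat.le_add_right _ _, Or.inr (by rw [hm]; ring)⟩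
  by_cases hvc : v ≤ N.factorial.factorization p
  · exact ⟨0, 0, 0, by omega, Or.inl rfl⟩
  push Not at hvc
  obtain ⟨m0, hm0⟩ := hpd
  set c := N.factorial.factorization p with hc
  have hv : p ^ v = p ^ (v - c) * p ^ c := by
    rw [← pow_add, Nat.sub_add_cancel hvc.le]
  have hq0 : 0 < p ^ (v - c) := pow_pos hp.pos _
  rcases Nat.lt_or_ge 1 N with h1 | h1
  · obtain ⟨N', rfl⟩ := Nat.exists_eq_add_of_le' h1
    have e1 : N' + (1 + 1) - 1 = N' + 1 := rfl
    have hle : 2 * (N' + 2).factorial ^ 2 * (p ^ (v - c)) ^ N' ≤ p ^ c * m0 := by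
      have h2 : p ^ (v - c) * (2 * (N' + 2).factorial ^ 2 * (p ^ (v - c)) ^ N') ≤
          p ^ (v - c) * (p ^ c * m0) := by
        have h3 : p ^ (v - c) ≤ p ^ v := Nat.pow_le_pow_right hp.pos (Nat.sub_le _ _)
        calc p ^ (v - c) * (2 * (N' + 2).factorial ^ 2 * (p ^ (v - c)) ^ N')
            = 2 * (N' + 2).factorial ^ 2 * (p ^ (v - c)) ^ (N' + 1) := by ring
          _ ≤ 2 * (N' + 2).factorial ^ 2 * (p ^ v) ^ (N' + 1) :=
              Nat.mul_le_mul_left _ (Nat.pow_le_pow_left h3 _)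
          _ ≤ d := h
          _ = p ^ (v - c) * (p ^ c * m0) := by rw [hm0, hv]; ring
      exact Nat.le_of_mul_le_mul_left h2 hq0
    obtain ⟨al, be, hab⟩ := rep2_aux N' p (v - c) c (p ^ c * m0) hp hc.symm
      (dvd_mul_right _ _) hle
    refine ⟨v - c, al, be, by omega, Or.inr ?_⟩
    rw [e1, pow_succ (p ^ (v - c)) N']
    calc d = p ^ (v - c) * (p ^ c * m0) := by rw [hm0, hv]; ring
      _ = p ^ (v - c) * (al * (N' + 2).factorial +
          be * ((p ^ (v - c)) ^ N' * ((N' + 2).factorial + 1))) := by rw [← hab]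
      _ = _ := by ring
  · have hN1 : N = 1 := by omega
    subst hN1
    refine ⟨v - c, p ^ c * m0, 0, by omega, Or.inr ?_⟩
    rw [hm0, hv, Nat.factorial_one]
    ring

end Pool.Agent.Helper32.VD
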